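import Pool.Agent.Y744.ANC.Fin

/-!
# Montgomery's pair correlation conjecture and the number of pairs at distance at most `v`

Let `D(T; α, β)` be the difference between `N(T; α, β) / ((T / 2π) log T)` and the constant of the
conjecture.  Assume RH.  The conjecture (for all windows) holds along `T → ∞`, or along any sequence
`T → ∞`, if and only if the number of pairs of zeros whose normalised distance is at most `v`
satisfies ONE one sided bound with an exponentially small error, for large `v` only:
`s D(T; -v, v) ≤ C e^(-c v) + o(1)` for every `v ≥ A`, with `s = 1` or `s = -1`.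

Idea of the proof.  Let `ν` be the discrepancy measure of a limit of the pair correlations and
`n(v) = ν([-v, v]) / 2`, extended as an odd function.  By Montgomery's theorem `n` has a spectral gap
around `0`, and so does the even function `v n(v)`, whose negative (or positive) part is
exponentially small on both sides.  Then all of `v n(v)` is exponentially small in the mean, its
Fourier transform is analytic in a strip and vanishes in an interval, and `n = 0`.
-/

open Filter

namespace Pool.Agent.Results.MP_103a5c_nt.AnchoredWindows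

/-- the nontrivial zeros of `ζ` with ordinate in `(0, T]` -/
def zeros (T : ℝ) : Set ℂ :=
  {s : ℂ | 0 < s.re ∧ s.re < 1 ∧ 0 < s.im ∧ s.im ≤ T ∧ riemannZeta s = 0}

/-- the multiplicity of `s` as a zero of `ζ` -/
noncomputable def mult (s : ℂ) : ℕ := analyticOrderNatAt riemannZeta s

/-- `N(T; α, β)`: the number of ordered pairs of zeros (counted with multiplicity, the diagonal
included) with ordinates in `(0, T]` whose difference lies in `[2πα / log T, 2πβ / log T]` -/
noncomputable def N (T α β : ℝ) : ℕ :=
  ∑ᶠ s ∈ zeros T, ∑ᶠ s' ∈ {s' : ℂ | s' ∈ zeros T ∧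
    2 * Real.pi * α / Real.log T ≤ s.im - s'.im ∧ s.im - s'.im ≤ 2 * Real.pi * β / Real.log T},
      mult s * mult s'

/-- the constant of the conjecture, `∫_α^β (1 - (sin πu / πu)²) du + δ(α, β)` -/
noncomputable def P (α β : ℝ) : ℝ :=
  (∫ u in α..β, (1 - (Real.sin (Real.pi * u) / (Real.pi * u)) ^ 2)) +
    if α ≤ 0 ∧ 0 ≤ β then 1 else 0

/-- `(T / 2π) log T` -/
noncomputable def X (T : ℝ) : ℝ := T / (2 * Real.pi) * Real.log T

/-- the discrepancy -/
noncomputable def D (T α β : ℝ) : ℝ := N T α β / X T - P α β

/-- Montgomery's conjecture along the filter `F` (along `T → ∞` if `F = atTop`) -/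
def Montgomery (F : Filter ℝ) : Prop := ∀ α β : ℝ, α < β →
  Asymptotics.IsEquivalent F (fun T => (N T α β : ℝ)) (fun T => P α β * X T)

/-- the one sided bound with the sign `s` for the number of pairs at distance at most `v`, for all
large `v`: `s D(T; -v, v) ≤ C e^(-c v) + o(1)` for every `v ≥ A` -/
def AnchoredBound (F : Filter ℝ) (s : ℝ) : Prop := ∃ C c A : ℝ, 0 < C ∧ 0 < c ∧ 0 < A ∧
  ∀ v : ℝ, A ≤ v → ∀ ε : ℝ, 0 < ε → ∀ᶠ T in F, s * D T (-v) v ≤ C * Real.exp (-(c * v)) + ε

/-- **One sided bounds for the pairs at distance at most `v`, `v` large, determine the pair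
correlation.** -/
theorem result (hRH : RiemannHypothesis) (F : Filter ℝ) (hF : F ≤ atTop) (s : ℝ)
    (hs : s = 1 ∨ s = -1) : Montgomery F ↔ AnchoredBound F s :=
  Pool.Agent.Y744.ANC.main hRH F hF s hs

end Pool.Agent.Results.MP_103a5c_nt.AnchoredWindows
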