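import Pool.Agent.Y744.PCR.Glue

/-!
# Montgomery's pair correlation conjecture and its far windows, under RH

Let `D(T; α, β)` be the difference between `N(T; α, β) / ((T / 2π) log T)` and the constant of the
conjecture.  Assume RH.  The conjecture holds along `T → ∞` (or along any sequence `T → ∞`) if and
only if, for two window lengths `ℓ₁`, `ℓ₂` with irrational quotient, a one sided bound
`s D(T; a, a + ℓ) ≤ C e^(-c a) + o(1)` holds for all large `a` (the sign `s = ± 1` may depend on the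
length, and `ℓ₁`, `ℓ₂` may be as large as we please).  If the one sided bound holds for one length
`ℓ`, then `|D(T; α, β)| ≤ (π² / 9) ℓ³ + o(1)` for every window.
-/

open Filter

namespace Pool.Agent.Results.MP_103a5c_nt.FarWindows

/-- the nontrivial zeros of `ζ` with ordinate in `(0, T]` -/
def zeros (T : ℝ) : Set ℂ :=
  {s : ℂ | 0 < s.re ∧ s.re < 1 ∧ 0 < s.im ∧ s.im ≤ T ∧ riemannZeta s = 0}

/-- the multiplicity of `s` as a zero of `ζ` -/
noncomputable def mult (s : ℂ) : ℕ := analyticOrderNatAt riemannZeta s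

/-- `N(T; α, β)`: the number of ordered pairs of zeros (counted with multiplicity, the diagonal
included) with ordinates in `(0, T]` whose difference lies in `[2πα / log T, 2πβ / log T]` -/
noncomputable def N (T α β : ℝ) : ℕ :=
  ∑ᶠ s ∈ zeros T, ∑ᶠ s' ∈ {s' : ℂ | s' ∈ zeros T ∧
    2 * Real.pi * α / Real.log T ≤ s.im - s'.im ∧ s.im - s'.im ≤ 2 * Real.pi * β / Real.log T},
      mult s * mult s'

/-- the constant of the conjecture, `∫_α^β (1 - (sin πu / πu)²) du + δ(α, β)` -/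
noncomputable def P (α β : ℝ) : ℝ :=
  (∫ u in α..β, (1 - (Real.sin (Real.pi * u) / (Real.pi * u)) ^ 2)) +
    if α ≤ 0 ∧ 0 ≤ β then 1 else 0

/-- `(T / 2π) log T` -/
noncomputable def X (T : ℝ) : ℝ := T / (2 * Real.pi) * Real.log T

/-- the discrepancy -/
noncomputable def D (T α β : ℝ) : ℝ := N T α β / X T - P α β

/-- Montgomery's conjecture along the filter `F` (along `T → ∞` if `F = atTop`) -/
def Montgomery (F : Filter ℝ) : Prop := ∀ α β : ℝ, α < β →
  Asymptotics.IsEquivalent F (fun T => (N T α β : ℝ)) (fun T => P α β * X T)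

/-- the one sided bound with the sign `s` for all the windows of length `ℓ` to the right of some
point: `s D(T; a, a + ℓ) ≤ C e^(-c a) + o(1)` for every `a ≥ A` -/
def OneSided (F : Filter ℝ) (ℓ s : ℝ) : Prop := ∃ C c A : ℝ, 0 < C ∧ 0 < c ∧ 0 < A ∧
  ∀ a : ℝ, A ≤ a → ∀ ε : ℝ, 0 < ε → ∀ᶠ T in F, s * D T a (a + ℓ) ≤ C * Real.exp (-(c * a)) + ε

/-- **The far windows of two lengths determine the pair correlation.** -/
theorem result (hRH : RiemannHypothesis) (F : Filter ℝ) (hF : F ≤ atTop) :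
    (∀ ℓ₁ ℓ₂ s₁ s₂ : ℝ, 0 < ℓ₁ → 0 < ℓ₂ → Irrational (ℓ₁ / ℓ₂) → (s₁ = 1 ∨ s₁ = -1) →
      (s₂ = 1 ∨ s₂ = -1) → (Montgomery F ↔ OneSided F ℓ₁ s₁ ∧ OneSided F ℓ₂ s₂)) ∧
    (∀ ℓ s : ℝ, 0 < ℓ → (s = 1 ∨ s = -1) → OneSided F ℓ s → ∀ α β : ℝ, α < β →
      ∀ ε : ℝ, 0 < ε → ∀ᶠ T in F, |D T α β| ≤ Real.pi ^ 2 / 9 * ℓ ^ 3 + ε) :=
  Pool.Agent.Y744.G.main hRH F hF

end Pool.Agent.Results.MP_103a5c_nt.FarWindows
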