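import Pool.Agent.Y749.Rig.SPk

/-!
# Sign changes of the discrepancy in Montgomery's pair correlation conjecture

Let `D(T; α, β)` be the difference between `N(T; α, β) / ((T / 2π) log T)` and the constant of the
conjecture.  Assume RH.  If the conjecture fails (along `T → ∞`, or along some sequence `T → ∞`)
then, for every length `L` and every `m < 2 L`, there are arbitrarily far away, in an interval of
length `L`, points `v_0 < v_1 < ... < v_m` such that for arbitrarily large `T` the discrepancies
`D(T; -v_i, v_i)` of the numbers of pairs at distance at most `v_i` have alternating signs and are not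
small.  So the discrepancy changes its sign at least twice in each mean spacing, in the mean, and the
signs can be seen at amplitudes that do not decay exponentially.  The same holds for `m + 1 < 2 L`
for the discrepancies of `m + 1` disjoint windows in an interval of length `L`.  Conversely this is a
criterion for the conjecture.

Idea of the proof.  Let `ν` be the discrepancy measure of a limit of the pair correlations and
`n(v) = ν([-v, v])`, extended as an odd function.  By Montgomery's theorem `n` has a spectral gap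
`(-1, 1)`.  If `n` had at most `m` sign changes in each interval of length `L` beyond `A` (up to an
exponentially small error) then a suitable entire function `P` of exponential type less than `2π`,
with zeros at these sign changes, would make `P n` of one sign, and `P n` still has a spectral gap
around `0`.  Then `P n` is exponentially small in the mean, its Fourier transform is analytic in a
strip and vanishes in an interval, so that `n = 0`.
-/

open Filter

namespace Pool.Agent.Results.MP_103a5c_nt.SignChanges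

/-- the nontrivial zeros of `ζ` with ordinate in `(0, T]` -/
def zeros (T : ℝ) : Set ℂ :=
  {s : ℂ | 0 < s.re ∧ s.re < 1 ∧ 0 < s.im ∧ s.im ≤ T ∧ riemannZeta s = 0}

/-- the multiplicity of `s` as a zero of `ζ` -/
noncomputable def mult (s : ℂ) : ℕ := analyticOrderNatAt riemannZeta s

/-- `N(T; α, β)`: the number of ordered pairs of zeros (counted with multiplicity, the diagonal
included) with ordinates in `(0, T]` whose difference lies in `[2πα / log T, 2πβ / log T]` -/
noncomputable def N (T α β : ℝ) : ℕ :=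
  ∑ᶠ s ∈ zeros T, ∑ᶠ s' ∈ {s' : ℂ | s' ∈ zeros T ∧
    2 * Real.pi * α / Real.log T ≤ s.im - s'.im ∧ s.im - s'.im ≤ 2 * Real.pi * β / Real.log T},
      mult s * mult s'

/-- the constant of the conjecture, `∫_α^β (1 - (sin πu / πu)²) du + δ(α, β)` -/
noncomputable def P (α β : ℝ) : ℝ :=
  (∫ u in α..β, (1 - (Real.sin (Real.pi * u) / (Real.pi * u)) ^ 2)) +
    if α ≤ 0 ∧ 0 ≤ β then 1 else 0

/-- `(T / 2π) log T` -/
noncomputable def X (T : ℝ) : ℝ := T / (2 * Real.pi) * Real.log T

/-- the discrepancy -/
noncomputable def D (T α β : ℝ) : ℝ := N T α β / X T - P α β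

/-- Montgomery's conjecture along the filter `F` (along `T → ∞` if `F = atTop`) -/
def Montgomery (F : Filter ℝ) : Prop := ∀ α β : ℝ, α < β →
  Asymptotics.IsEquivalent F (fun T => (N T α β : ℝ)) (fun T => P α β * X T)

/-- beyond `A`, no `m + 1` points `v_0 < ... < v_m` within an interval of length `L` at which the
discrepancies `D(T; -v_i, v_i)` alternate in sign with `|D| > C e^(-c v_i) + ε` for arbitrarily
large `T` -/
def SignBound (F : Filter ℝ) (A L C c : ℝ) (m : ℕ) : Prop := ∀ s : ℝ, (s = 1 ∨ s = -1) →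
  ∀ v : ℕ → ℝ, (∀ i < m, v i < v (i + 1)) → A < v 0 → v m < v 0 + L → ∀ ε : ℝ, 0 < ε →
    ∀ᶠ T in F, ∃ i ≤ m, s * ((-1) ^ i * D T (-v i) (v i)) ≤ C * Real.exp (-(c * v i)) + ε

/-- beyond `A`, no `m + 1` disjoint windows `[a_i, b_i]` within an interval of length `L` whose
discrepancies `D(T; a_i, b_i)` alternate in sign with `|D| > C e^(-c a_i) + ε` for arbitrarily
large `T` -/
def WindowBound (F : Filter ℝ) (A L C c : ℝ) (m : ℕ) : Prop := ∀ s : ℝ, (s = 1 ∨ s = -1) →
  ∀ a b : ℕ → ℝ, (∀ i ≤ m, a i < b i) → (∀ i < m, b i < a (i + 1)) → A < a 0 →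
    b m < a 0 + L → ∀ ε : ℝ, 0 < ε →
    ∀ᶠ T in F, ∃ i ≤ m, s * ((-1) ^ i * D T (a i) (b i)) ≤ C * Real.exp (-(c * a i)) + ε

/-- `SignBound` only for the points up to `R` and only with the error `ε` -/
def SignBoundUpTo (F : Filter ℝ) (A L C c : ℝ) (m : ℕ) (R ε : ℝ) : Prop :=
  ∀ s : ℝ, (s = 1 ∨ s = -1) →
  ∀ v : ℕ → ℝ, (∀ i < m, v i < v (i + 1)) → A < v 0 → v m < v 0 + L → v m ≤ R →
    ∀ᶠ T in F, ∃ i ≤ m, s * ((-1) ^ i * D T (-v i) (v i)) ≤ C * Real.exp (-(c * v i)) + ε

/-- **If the pair correlation conjecture fails then the discrepancy of the pair counts changes its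
sign at least twice in each mean spacing, in the mean.** -/
theorem result (hRH : RiemannHypothesis) (A L C c : ℝ) (m : ℕ) (hA : 0 ≤ A) (hL : 0 < L)
    (hC : 0 ≤ C) (hc : 0 < c) :
    (∀ F : Filter ℝ, F ≤ atTop → (m : ℝ) < 2 * L → (Montgomery F ↔ SignBound F A L C c m)) ∧
    (∀ F : Filter ℝ, F ≤ atTop → (m : ℝ) + 1 < 2 * L →
      (Montgomery F ↔ WindowBound F A L C c m)) ∧
    ((m : ℝ) < 2 * L → ∀ δ B : ℝ, 0 < δ → ∃ R ε : ℝ, 0 < ε ∧ ∀ F : Filter ℝ, F ≤ atTop →
      SignBoundUpTo F A L C c m R ε → ∀ v : ℝ, 0 ≤ v → v ≤ B → ∀ᶠ T in F, |D T (-v) v| ≤ δ) :=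
  ⟨fun _ hF hm => Pool.Agent.Y749.Rig.S.main1 hRH hF hA hC hc hL hm,
    fun _ hF hm => Pool.Agent.Y749.Rig.S.main2 hRH hF hA hC hc hL hm,
    fun hm _ _ hδ => Pool.Agent.Y749.Rig.S.main3 hRH hA hC hc hL hm hδ⟩

end Pool.Agent.Results.MP_103a5c_nt.SignChanges
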